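import Pool.Agent.Helper62.CS.NLR
import Pool.Agent.Helper62.CS.LVR
import Pool.Agent.Helper62.CS.UR
import Pool.Agent.Helper61.CS.UB
import Pool.Agent.Helper15.CS.LC4
import Pool.Agent.Helper19.CS.ERR
import Pool.Agent.Helper19.CS.PSH
import Pool.Agent.Helper42.CS.LC2
import Pool.Agent.Helper42.CS.TRI
import Pool.Agent.Helper59.CS.COD
import Pool.Agent.Helper59.CS.GD0
import Pool.Agent.Helper59.CS.CRD
import Pool.Agent.Helper59.CS.SPA
import Pool.Agent.Helper8.CS.EMP
import Pool.Agent.Helper8.CS.COR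
import Pool.Agent.Helper8.CS.IND
import Pool.Agent.Helper8.CS.LC3
import Pool.Agent.Helper80.CS.CYL
import Pool.Agent.Helper80.CS.EMR
import Pool.Agent.Helper81.CS.BLD
import Pool.Agent.Helper81.CS.CNT
import Pool.Agent.Helper81.CS.HRM

/-!
Relative to a random oracle there is a co-sparse set in NP that is not in the second level of the
low hierarchy.

All definitions used in the statement are in the file Pool/Agent/Helper62/CS/Defs.lean.
-/

namespace Pool.Agent.Results.MP_2bf3f9_lc.RandomOracle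

open Pool.Agent.Helper62.CS MeasureTheory

/-- For almost every oracle `R` (every word is put into `R` independently with probability one
half) there is, relative to `R`, a set `A` in `NP` whose complement is sparse and for which
`Σ₂(A) ≠ Σ₂`. -/
theorem result : ∀ᵐ R ∂randomOracle,
    ∃ A : Lang, A ∈ NPClass (orc R) ∧ CoSparse A ∧
      SigmaP 2 (join A (orc R)) ≠ SigmaP 2 (orc R) := by
  have hCOD : ST_COD := Pool.Agent.Helper62.CS.st_COD
  have hLC4 : ST_LC4 := Pool.Agent.Helper15.CS.st_LC4 Pool.Agent.Helper42.CS.st_LC1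
    (Pool.Agent.Helper42.CS.st_LC2 Pool.Agent.Helper42.CS.st_LC1) Pool.Agent.Helper8.CS.st_LC3
  have hTAL : ST_TAL := Pool.Agent.Helper19.CS.st_TAL Pool.Agent.Helper8.CS.st_IND
    Pool.Agent.Helper8.CS.st_COR
  have hERR : ST_ERR := Pool.Agent.Helper19.CS.st_ERR hTAL Pool.Agent.Helper8.CS.st_EMP
  have hLVR : ST_LVR := st_LVR hLC4 hERR Pool.Agent.Helper19.CS.st_PSH hCOD
  have hNLR : ST_NLR := NLR.st_NLR hLVR Pool.Agent.Helper80.CS.st_CYL hLC4 hCOD
  have hSPA : ST_SPA := Pool.Agent.Helper62.CS.st_SPA (Pool.Agent.Helper80.CS.st_EMR hCOD)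
    Pool.Agent.Helper80.CS.st_CYL
  obtain ⟨htri, hcnt⟩ := Pool.Agent.Helper42.CS.st_TRI
  have hT : GoodT T0 := st_GD0 Pool.Agent.Helper81.CS.st_CNT st_CRD
    Pool.Agent.Helper81.CS.st_HRM
  have := hcnt
  have h1 : ∀ᵐ R ∂randomOracle, ∀ s : Tri, s.F (orc R) ≠ Lset (Aset T0 R) :=
    ae_all_iff.2 (fun s => hNLR T0 hT s)
  filter_upwards [h1, hSPA T0 hT] with R hR hS
  refine ⟨Aset T0 R, st_UR Pool.Agent.Helper81.CS.st_BLD R, hS, ?_⟩
  intro heq
  have h2 : Lset (Aset T0 R) ∈ SigmaP 2 (orc R) := by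
    rw [← heq]
    exact Pool.Agent.Helper61.CS.st_UB (Aset T0 R) (orc R)
  obtain ⟨s, hs⟩ := (htri _ _).1 h2
  exact hR s hs.symm

end Pool.Agent.Results.MP_2bf3f9_lc.RandomOracle
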